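import Pool.Agent.H11.KT.Targets

/-!
# ND: the radical of the bilinear form `Bs` (helper45)
-/

set_option autoImplicit false

open scoped commutatorElement

namespace Pool.Agent.H45.KT

open Pool.Agent.H11.EL Pool.Agent.H11.KT

/-- module ND -/
theorem pf_ND : K_ND := by
  intro G _ M Z D hM hZ _ _ hz hr n t u hu h i
  induction i using Nat.strong_induction_on with
  | _ i ih =>
    intro hi
    have hlt : ∀ j < i, ⁅u j, t j⁆ ∈ Z := fun j hj => ih j hj (by omega)
    have hPs : ∀ m ≤ i, Ps m t u ∈ Z := by
      intro m
      induction m with
      | zero =>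
        intro _
        rw [Ps_zero]
        exact Z.one_mem
      | succ m ihm =>
        intro hm
        rw [Ps_succ]
        exact Z.mul_mem (ihm (by omega)) (hZ.conj_mem _ (hlt m (by omega)) _)
    have hPi : ∀ g : G, ⁅Ps i t u, g⁆ = 1 := fun g =>
      commutatorElement_eq_one_iff_mul_comm.2 (hz _ (hPs i le_rfl) g)
    have hcM : ⁅u i, t i⁆ ∈ M := by
      have e : ⁅u i, t i⁆ = u i * (t i * (u i)⁻¹ * (t i)⁻¹) := by
        rw [commutatorElement_def]
        group
      rw [e]
      exact M.mul_mem (hu i) (hM.conj_mem _ (M.inv_mem (hu i)) _)
    refine hr _ hcM fun m' hm' => ?_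
    have key : ∀ m : ℕ, Bs m t (fun j => if j = i then (t i)⁻¹ * m' * t i else 1) u =
        if i < m then ⁅m', ⁅u i, t i⁆⁆ else 1 := by
      intro m
      induction m with
      | zero => simp
      | succ m ihm =>
        rw [Bs_succ, ihm]
        rcases lt_trichotomy i m with hlt | heq | hgt
        · have hne : ¬ m = i := by omega
          rw [if_pos hlt, if_pos (show i < m + 1 by omega)]
          simp only [if_neg hne]
          have e1 : t m * 1 * (t m)⁻¹ = 1 := by group
          rw [e1, commutatorElement_one_left, commutatorElement_one_left]
          have e2 : Px m t * 1 * (Px m t)⁻¹ = 1 := by group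
          rw [e2, commutatorElement_one_right, mul_one, mul_one]
        · subst heq
          rw [if_neg (lt_irrefl i), if_pos (Nat.lt_succ_self i)]
          simp only [if_true]
          have e1 : t i * ((t i)⁻¹ * m' * t i) * (t i)⁻¹ = m' := by group
          rw [e1, hPi, mul_one, one_mul]
        · have hne : ¬ m = i := by omega
          rw [if_neg (show ¬ i < m by omega), if_neg (show ¬ i < m + 1 by omega)]
          simp only [if_neg hne]
          have e1 : t m * 1 * (t m)⁻¹ = 1 := by group
          rw [e1, commutatorElement_one_left, commutatorElement_one_left]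
          have e2 : Px m t * 1 * (Px m t)⁻¹ = 1 := by group
          rw [e2, commutatorElement_one_right, mul_one, mul_one]
    have h1 := h (fun j => if j = i then (t i)⁻¹ * m' * t i else 1) (fun j => by
      by_cases hj : j = i
      · simp only [if_pos hj]
        have := hM.conj_mem m' hm' (t i)⁻¹
        rwa [inv_inv] at this
      · simp only [if_neg hj]
        exact M.one_mem)
    rw [key n, if_pos hi] at h1
    have h2 := D.inv_mem h1
    rwa [commutatorElement_inv] at h2

end Pool.Agent.H45.KT
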